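import Mathlib
import Pool.Agent.Q40.CK.Base

namespace Pool.Agent.Results.MP_7b566e_nt.Fails

open PowerSeries Pool.Agent.Q35

/-- `A m k n`, the number of `k`-colored `m`-ary partitions of `n`: the coefficient of `x^n` in the
`k`-th power of the product over `i` of `1/(1 - x^(m^i))`; the factors with `i > n` do not influence
this coefficient, and `1/(1-x^d)` is written as the series with coefficient `1` at the multiples
of `d` and `0` elsewhere. -/
noncomputable def A (m k n : ℕ) : ℕ :=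
  coeff n ((∏ i ∈ Finset.range (n + 1), mk fun j => if m ^ i ∣ j then (1 : ℕ) else 0) ^ k)

theorem cast_A (p k n : ℕ) [NeZero p] (hp : 2 ≤ p) (f : PowerSeries ℤ) (hf : f = U ^ k * E p f)
    (h0 : coeff 0 f = 1) : ((A p k n : ℕ) : ℤ) = coeff n f := by
  have h := cast_coeff (R := ℤ) p 0 k n (n + 1)
  simp only [pow_zero, one_mul] at h
  rw [A, h]
  have h2 := coeff_geo_prod (R := ℤ) (b := p) hp k f hf h0 n (n + 1) (Nat.lt_succ_self n) 1
  rwa [one_mul, one_mul] at h2

/-- binomial coefficient `C(d+n, d)` computed quickly -/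
def cf (d n : ℕ) : ℕ := (d + 1).ascFactorial n / n.factorial

theorem cf_eq (d n : ℕ) : cf d n = (d + n).choose d := by
  rw [cf, Nat.ascFactorial_eq_factorial_mul_choose, Nat.mul_div_cancel_left _ (Nat.factorial_pos n),
    Nat.choose_symm_add]

/-- finite sum -/
def sm (f : ℕ → ℕ) : ℕ → ℕ
  | 0 => 0
  | n + 1 => sm f n + f n

theorem sm_eq (f : ℕ → ℕ) (n : ℕ) : sm f n = ∑ i ∈ Finset.range n, f i := by
  induction n with
  | zero => rfl
  | succ n ih => rw [sm, ih, Finset.sum_range_succ]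

/-- the recursion computed with fuel -/
def ev (p d : ℕ) : ℕ → ℕ → ℕ
  | 0, _ => 1
  | t + 1, n => sm (fun j => cf d (p * (n / p - j) + n % p) * ev p d t j) (n / p + 1)

theorem A_rec (p d n : ℕ) [NeZero p] (hp : 2 ≤ p) : A p (d + 1) n =
    ∑ j ∈ Finset.range (n / p + 1), (d + (p * (n / p - j) + n % p)).choose d * A p (d + 1) j := by
  obtain ⟨f, hf, h0⟩ := exists_func (R := ℤ) (b := p) hp (U ^ (d + 1)) (by
    rw [coeff_zero_eq_constantCoeff_apply, map_pow, ← coeff_zero_eq_constantCoeff_apply,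
      coeff_zero_U, one_pow])
  have h1 : ((A p (d + 1) n : ℕ) : ℤ) = ∑ j ∈ Finset.range (n / p + 1),
      (((d + (p * (n / p - j) + n % p)).choose d : ℕ) : ℤ) * ((A p (d + 1) j : ℕ) : ℤ) := by
    rw [cast_A p (d + 1) n hp f hf h0]
    conv_lhs => rw [hf, ← Nat.div_add_mod n p]
    rw [Pool.Agent.Q40.CK.coeff_mul_E p _ _ (n / p) (n % p) (Nat.mod_lt _ (by omega)), mul_comm,
      coeff_mul, Finset.Nat.sum_antidiagonal_eq_sum_range_succ
      (fun i j => coeff i f * coeff j (mk fun i => coeff (p * i + n % p) (U ^ (d + 1) :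
        PowerSeries ℤ)))]
    apply Finset.sum_congr rfl
    intro j hj
    rw [coeff_mk, ← cast_A p (d + 1) j hp f hf h0, U, mk_one_pow_eq_mk_choose_add, coeff_mk,
      mul_comm]
  exact_mod_cast h1

theorem A_zero (p k : ℕ) [NeZero p] (hp : 2 ≤ p) : A p k 0 = 1 := by
  obtain ⟨f, hf, h0⟩ := exists_func (R := ℤ) (b := p) hp (U ^ k) (by
    rw [coeff_zero_eq_constantCoeff_apply, map_pow, ← coeff_zero_eq_constantCoeff_apply,
      coeff_zero_U, one_pow])
  have := cast_A p k 0 hp f hf h0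
  rw [h0] at this
  exact_mod_cast this

theorem A_eq_ev (p d : ℕ) [NeZero p] (hp : 2 ≤ p) (t : ℕ) : ∀ n, n < p ^ t →
    A p (d + 1) n = ev p d t n := by
  induction t with
  | zero =>
    intro n hn
    have : n = 0 := by simpa using hn
    subst this
    rw [A_zero p _ hp, ev]
  | succ t ih =>
    intro n hn
    rw [A_rec p d n hp, ev, sm_eq]
    apply Finset.sum_congr rfl
    intro j hj
    have hj2 : j < n / p + 1 := Finset.mem_range.mp hj
    have hn2 : n / p < p ^ t := by
      rw [Nat.div_lt_iff_lt_mul (by omega)]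
      rwa [pow_succ] at hn
    rw [ih j (by omega), cf_eq]

theorem comp221 : ev 13 767 3 221 % 13 ^ (4 + 1) ≠ 0 ∧ ev 13 767 3 221 % 13 ^ 4 = 0 := by
  decide +kernel

theorem comp222 : ev 13 767 3 222 % 13 ^ (3 + 1) ≠ 0 ∧ ev 13 767 3 222 % 13 ^ 3 = 0 := by
  decide +kernel

theorem val_of (p e x : ℕ) [Fact p.Prime] (h1 : x % p ^ (e + 1) ≠ 0) (h2 : x % p ^ e = 0) :
    padicValNat p x = e := by
  have hx : x ≠ 0 := by
    rintro rfl
    exact h1 (Nat.zero_mod _)
  have h3 := (padicValNat_dvd_iff_le (p := p) (n := e) hx).mp (Nat.dvd_of_mod_eq_zero h2)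
  have h4 : ¬ e + 1 ≤ padicValNat p x := by
    intro h
    exact h1 (Nat.mod_eq_zero_of_dvd ((padicValNat_dvd_iff_le hx).mpr h))
  omega

/-- Both parts of the conjecture fail for `p = 13`, `u = 5`, `s = 1`, that is `k = 768`: the
valuation of `A 13 768 221` is `4` although `221 ≥ 5 * 13`, and the valuations of
`A 13 768 (13 * 17)` and `A 13 768 (13 * 17 + 1)` are different. -/
theorem result :
    (padicValNat 13 (A 13 768 (13 * 17)) = 4 ∧ padicValNat 13 (A 13 768 (13 * 17 + 1)) = 3) ∧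
    (¬ ∀ p u s : ℕ, p.Prime → 3 ≤ p → 2 ≤ u → u ≤ p - 1 → 1 ≤ s →
      ∀ n, u * p ^ s ≤ n → padicValNat p (A p ((p - 1) * (u * p ^ s - 1)) n) = 1 ∨
        padicValNat p (A p ((p - 1) * (u * p ^ s - 1)) n) = 2) ∧
    (¬ ∀ p u s : ℕ, p.Prime → 3 ≤ p → 2 ≤ u → u ≤ p - 1 → 1 ≤ s →
      ∀ n, 1 ≤ n → ∀ i j, i < p → j < p →
        padicValNat p (A p ((p - 1) * (u * p ^ s - 1)) (p * n + i)) =
        padicValNat p (A p ((p - 1) * (u * p ^ s - 1)) (p * n + j))) := by
  have : Fact (Nat.Prime 13) := ⟨by norm_num⟩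
  have e1 : A 13 768 (13 * 17) = ev 13 767 3 221 := by
    have h := A_eq_ev 13 767 (by norm_num) 3 221 (by norm_num)
    have e768 : 767 + 1 = 768 := by norm_num
    have e221 : 13 * 17 = 221 := by norm_num
    rw [e768] at h
    rw [e221]
    exact h
  have e2 : A 13 768 (13 * 17 + 1) = ev 13 767 3 222 := by
    have h := A_eq_ev 13 767 (by norm_num) 3 222 (by norm_num)
    have e768 : 767 + 1 = 768 := by norm_num
    have e222 : 13 * 17 + 1 = 222 := by norm_num
    rw [e768] at h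
    rw [e222]
    exact h
  have v1 : padicValNat 13 (A 13 768 (13 * 17)) = 4 := by
    rw [e1]
    exact val_of 13 4 _ comp221.1 comp221.2
  have v2 : padicValNat 13 (A 13 768 (13 * 17 + 1)) = 3 := by
    rw [e2]
    exact val_of 13 3 _ comp222.1 comp222.2
  refine ⟨⟨v1, v2⟩, ?_, ?_⟩
  · intro h
    have h1 := h 13 5 1 (by norm_num) (by norm_num) (by norm_num) (by norm_num) le_rfl (13 * 17)
      (by norm_num)
    have e3 : (13 - 1) * (5 * 13 ^ 1 - 1) = 768 := by norm_num
    rw [e3, v1] at h1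
    omega
  · intro h
    have h1 := h 13 5 1 (by norm_num) (by norm_num) (by norm_num) (by norm_num) le_rfl 17
      (by norm_num) 0 1 (by norm_num) (by norm_num)
    have e3 : (13 - 1) * (5 * 13 ^ 1 - 1) = 768 := by norm_num
    rw [e3, add_zero, v1, v2] at h1
    omega

end Pool.Agent.Results.MP_7b566e_nt.Fails
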